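import Pool.Agent.H547.C9.Stm3

set_option autoImplicit false

/-!
# Task C9 U: the uniqueness lemma
-/

namespace Pool.Agent.H411.C9

open Finset Polynomial Pool.Agent.H547.P3 Pool.Agent.H547.C9

section

variable {A : Type} [CommRing A]

theorem h3_fac (k : ℕ) : h3 k * (k.factorial) ^ 3 = (3 * k).factorial := by
  have h1 : (2 * k).choose k * k.factorial * (2 * k - k).factorial = (2 * k).factorial :=
    Nat.choose_mul_factorial_mul_factorial (by omega)
  have h2 : (3 * k).choose k * k.factorial * (3 * k - k).factorial = (3 * k).factorial :=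
    Nat.choose_mul_factorial_mul_factorial (by omega)
  rw [show 2 * k - k = k by omega] at h1
  rw [show 3 * k - k = 2 * k by omega] at h2
  unfold h3
  rw [Nat.centralBinom_eq_two_mul_choose, ← h2, ← h1]
  ring

theorem h3_succ_nat (k : ℕ) : h3 (k + 1) * (k + 1) ^ 2 = 3 * (3 * k + 1) * (3 * k + 2) * h3 k := by
  have h1 := h3_fac (k + 1)
  have h2 := h3_fac k
  have h4 : (3 * (k + 1)).factorial = (3 * k + 3) * ((3 * k + 2) * ((3 * k + 1) * (3 * k).factorial)) := by
    rw [show 3 * (k + 1) = 3 * k + 2 + 1 by ring, Nat.factorial_succ,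
      show 3 * k + 2 = 3 * k + 1 + 1 by ring, Nat.factorial_succ, Nat.factorial_succ]
  rw [h4, ← h2, Nat.factorial_succ] at h1
  have h5 : 0 < (k + 1) * k.factorial ^ 3 := Nat.mul_pos (Nat.succ_pos k) (pow_pos k.factorial_pos 3)
  apply Nat.eq_of_mul_eq_mul_right h5
  calc h3 (k + 1) * (k + 1) ^ 2 * ((k + 1) * k.factorial ^ 3)
      = h3 (k + 1) * ((k + 1) * k.factorial) ^ 3 := by ring
    _ = _ := by rw [h1]; ring

theorem h3_succ (k : ℕ) : (h3 (k + 1) : A) * ((k : A) + 1) ^ 2 =
    3 * (3 * (k : A) + 1) * (3 * (k : A) + 2) * (h3 k : A) := by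
  have h := congrArg (Nat.cast : ℕ → A) (h3_succ_nat k)
  push_cast at h
  exact h

/-- the coefficient polynomial -/
noncomputable def tu (a b : ℕ → A) (i : ℕ) : A[X] := C (a i) + C (b i) * (X - C (i : A))

noncomputable def eu (l : ℕ) : A[X] :=
  C 3 * ((C 3 * X - C (3 * (l : A) + 2)) * (C 3 * X - C (3 * (l : A) + 1)))

noncomputable def Qu (a b : ℕ → A) : ℕ → ℕ → A[X]
  | 0, i0 => tu a b i0
  | r + 1, i0 => tu a b i0 * ∏ l ∈ range (r + 1), eu (i0 + l) + (X - C (i0 : A)) ^ 2 * Qu a b r (i0 + 1)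

theorem tu_deg (a b : ℕ → A) (i : ℕ) : (tu a b i).natDegree ≤ 1 := by
  unfold tu
  have h1 : (X - C (i : A)).natDegree ≤ 1 := natDegree_X_sub_C_le _
  refine natDegree_add_le_of_degree_le ?_ ?_
  · simp
  · exact (natDegree_C_mul_le _ _).trans (by omega)

theorem lin_deg (c d : A) : (C c * X - C d : A[X]).natDegree ≤ 1 := by
  refine (natDegree_sub_le _ _).trans (max_le ((natDegree_C_mul_le _ _).trans natDegree_X_le) ?_)
  rw [natDegree_C]; omega

theorem eu_deg (l : ℕ) : (eu l : A[X]).natDegree ≤ 2 := by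
  unfold eu
  refine (natDegree_C_mul_le _ _).trans (natDegree_mul_le.trans ?_)
  have h1 := lin_deg (3 : A) (3 * (l : A) + 2)
  have h2 := lin_deg (3 : A) (3 * (l : A) + 1)
  omega

theorem produ_deg (r i0 : ℕ) : (∏ l ∈ range r, eu (i0 + l) : A[X]).natDegree ≤ 2 * r := by
  induction r with
  | zero => simp
  | succ r ih =>
    rw [prod_range_succ]
    refine natDegree_mul_le.trans ?_
    have := eu_deg (A := A) (i0 + r)
    omega

theorem Qu_deg (a b : ℕ → A) (r : ℕ) : ∀ i0, (Qu a b r i0).natDegree ≤ 2 * r + 1 := by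
  induction r with
  | zero => intro i0; simpa [Qu] using tu_deg a b i0
  | succ r ih =>
    intro i0
    rw [Qu]
    refine natDegree_add_le_of_degree_le ?_ ?_
    · refine natDegree_mul_le.trans ?_
      have h1 := tu_deg a b i0
      have h2 := produ_deg (A := A) (r + 1) i0
      omega
    · refine natDegree_mul_le.trans ?_
      have h1 : ((X - C (i0 : A)) ^ 2).natDegree ≤ 2 := by
        refine natDegree_pow_le.trans ?_
        have : (X - C (i0 : A)).natDegree ≤ 1 := natDegree_X_sub_C_le _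
        omega
      have h2 := ih (i0 + 1)
      omega

/-- the sum -/
noncomputable def Su (a b : ℕ → A) (r i0 N : ℕ) : A :=
  ∑ i ∈ range (r + 1), if i0 + i ≤ N then (h3 (N - (i0 + i)) : A) * (tu a b (i0 + i)).eval (N : A) else 0

theorem Qu_eval (a b : ℕ → A) (r : ℕ) : ∀ i0 N, i0 ≤ N →
    (h3 (N - i0) : A) * (Qu a b r i0).eval (N : A) =
      (∏ l ∈ range r, (eu (i0 + l) : A[X]).eval (N : A)) * Su a b r i0 N := by
  induction r with
  | zero =>
    intro i0 N h
    simp [Qu, Su, h]
  | succ r ih =>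
    intro i0 N h
    rw [Qu, eval_add, eval_mul, eval_mul, eval_prod, mul_add]
    have hS : Su a b (r + 1) i0 N = (h3 (N - i0) : A) * (tu a b i0).eval (N : A) + Su a b r (i0 + 1) N := by
      unfold Su
      rw [sum_range_succ']
      simp only [add_zero]
      rw [if_pos h, add_comm]
      congr 1
      refine sum_congr rfl fun i _ => ?_
      rw [show i0 + (i + 1) = i0 + 1 + i by omega]
    rw [hS]
    have hP : (∏ l ∈ range (r + 1), (eu (i0 + l) : A[X]).eval (N : A)) =
        (eu i0 : A[X]).eval (N : A) * ∏ l ∈ range r, (eu (i0 + 1 + l) : A[X]).eval (N : A) := by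
      rw [prod_range_succ', add_zero, mul_comm]
      refine congrArg (fun x => (eu i0 : A[X]).eval (N : A) * x) (prod_congr rfl fun l _ => ?_)
      rw [show i0 + (l + 1) = i0 + 1 + l by omega]
    have key : (h3 (N - i0) : A) * (((X - C (i0 : A)) ^ 2).eval (N : A) * (Qu a b r (i0 + 1)).eval (N : A)) =
        (∏ l ∈ range (r + 1), (eu (i0 + l) : A[X]).eval (N : A)) * Su a b r (i0 + 1) N := by
      rcases Nat.eq_or_lt_of_le h with h' | h'
      · subst h'
        have : Su a b r (i0 + 1) i0 = 0 := by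
          unfold Su
          refine sum_eq_zero fun i _ => ?_
          rw [if_neg (by omega)]
        rw [this, mul_zero]
        have : ((X - C (i0 : A)) ^ 2).eval (i0 : A) = 0 := by simp
        rw [this, zero_mul, mul_zero]
      · have h1 := ih (i0 + 1) N h'
        have h2 := h3_succ (A := A) (N - (i0 + 1))
        rw [show N - (i0 + 1) + 1 = N - i0 by omega] at h2
        have h3' : ((N - (i0 + 1) : ℕ) : A) + 1 = (N : A) - i0 := by
          rw [Nat.cast_sub h']; push_cast; ring
        have h4 : 3 * ((N - (i0 + 1) : ℕ) : A) + 1 = 3 * (N : A) - (3 * i0 + 2) := by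
          rw [Nat.cast_sub h']; push_cast; ring
        have h4' : 3 * ((N - (i0 + 1) : ℕ) : A) + 2 = 3 * (N : A) - (3 * i0 + 1) := by
          rw [Nat.cast_sub h']; push_cast; ring
        rw [h3', h4, h4'] at h2
        rw [hP, mul_assoc, ← h1]
        have h5 : (eu i0 : A[X]).eval (N : A) =
            3 * ((3 * (N : A) - (3 * i0 + 2)) * (3 * (N : A) - (3 * i0 + 1))) := by
          simp [eu]
        have h6 : ((X - C (i0 : A)) ^ 2).eval (N : A) = ((N : A) - i0) ^ 2 := by simp
        rw [h5, h6]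
        generalize eval (N : A) (Qu a b r (i0 + 1)) = Q0 at *
        generalize (h3 (N - i0) : A) = U0 at *
        generalize (h3 (N - (i0 + 1)) : A) = U1 at *
        linear_combination Q0 * h2
    rw [key]
    generalize (∏ l ∈ range (r + 1), (eu (i0 + l) : A[X]).eval (N : A)) = P0
    ring

theorem tu_zero (a b : ℕ → A) (i0 : ℕ) (E Q : A[X]) (hE : IsUnit (E.eval (i0 : A)))
    (h : tu a b i0 * E + (X - C (i0 : A)) ^ 2 * Q = 0) : a i0 = 0 ∧ b i0 = 0 := by
  have h1 := congrArg (fun f => f.comp (X + C (i0 : A))) h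
  simp only [add_comp, mul_comp, pow_comp, sub_comp, X_comp, C_comp, zero_comp, tu, add_sub_cancel_right] at h1
  set E' := E.comp (X + C (i0 : A))
  set Q' := Q.comp (X + C (i0 : A))
  have hE' : IsUnit (E'.coeff 0) := by
    rw [coeff_zero_eq_eval_zero, eval_comp]
    simpa using hE
  have c0 := congrArg (fun f => f.coeff 0) h1
  have c1 := congrArg (fun f => f.coeff 1) h1
  have e : (C (a i0) + C (b i0) * X) * E' + X ^ 2 * Q' =
      C (a i0) * E' + C (b i0) * (X * E') + X ^ 2 * Q' := by ring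
  simp only [e] at c0 c1
  have x10 : (X * E').coeff 0 = 0 := by simp
  have x11 : (X * E').coeff 1 = E'.coeff 0 := coeff_X_mul _ _
  have x20 : (X ^ 2 * Q').coeff 0 = 0 := by rw [coeff_X_pow_mul']; simp
  have x21 : (X ^ 2 * Q').coeff 1 = 0 := by rw [coeff_X_pow_mul']; simp
  simp only [coeff_add, coeff_C_mul, coeff_zero, x10, x11, x20, x21, mul_zero, add_zero] at c0 c1
  have ha : a i0 = 0 := hE'.mul_left_eq_zero.mp c0
  rw [ha, zero_mul, zero_add] at c1
  exact ⟨ha, hE'.mul_left_eq_zero.mp c1⟩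

theorem Qu_zero {p : ℕ} (hu : ∀ k : ℕ, 0 < k → k < p → IsUnit (k : A)) (a b : ℕ → A) (r : ℕ) :
    ∀ i0, 3 * r + 2 < p → 4 ≤ p → Qu a b r i0 = 0 → ∀ i, i0 ≤ i → i ≤ i0 + r → a i = 0 ∧ b i = 0 := by
  induction r with
  | zero =>
    intro i0 _ hp h i hi hi'
    have : i = i0 := by omega
    subst this
    refine tu_zero a b i 1 0 (by simp) ?_
    rw [Qu] at h
    simp [h]
  | succ r ih =>
    intro i0 hp hp' h i hi hi'
    rw [Qu] at h
    have h3u : IsUnit (3 : A) := by
      have := hu 3 (by omega) (by omega)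
      simpa using this
    have h0 := tu_zero a b i0 _ _ (by
      rw [eval_prod]
      rw [IsUnit.prod_iff]
      intro l hl
      rw [mem_range] at hl
      have : (eu (i0 + l) : A[X]).eval (i0 : A) =
          3 * ((((3 * l + 2 : ℕ)) : A) * (((3 * l + 1 : ℕ)) : A)) := by
        simp only [eu, eval_mul, eval_C, eval_sub, eval_X]
        push_cast; ring
      rw [this]
      exact h3u.mul ((hu (3 * l + 2) (by omega) (by omega)).mul (hu (3 * l + 1) (by omega) (by omega)))) h
    rcases Nat.eq_or_lt_of_le hi with hh | hh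
    · subst hh; exact h0
    · obtain ⟨ha, hb⟩ := h0
      have ht : tu a b i0 = 0 := by simp [tu, ha, hb]
      rw [ht, zero_mul, zero_add] at h
      have hm : ((X - C (i0 : A)) ^ 2 : A[X]).Monic := (monic_X_sub_C _).pow 2
      have hq : Qu a b r (i0 + 1) = 0 := by
        rwa [mul_comm, hm.mul_left_eq_zero_iff] at h
      exact ih (i0 + 1) (by omega) hp' hq i hh (by omega)

/-- **uniqueness** -/
theorem uniqu {p : ℕ} (hu : ∀ k : ℕ, 0 < k → k < p → IsUnit (k : A)) (Cc : ℕ) (hC : 6 * Cc + 5 ≤ p) (a b : ℕ → A)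
    (h : ∀ N ≤ 2 * Cc + 1, ∑ i ∈ range (Cc + 1), (if i ≤ N then
      (h3 (N - i) : A) * (a i + ((N : A) - i) * b i) else 0) = 0) :
    ∀ i ≤ Cc, a i = 0 ∧ b i = 0 := by
  have hunit : ∀ N ≤ 2 * Cc + 1, IsUnit (h3 N : A) := by
    intro N
    induction N with
    | zero => intro _; simp [h3]
    | succ N ih =>
      intro hN
      have h1 := h3_succ (A := A) N
      have h3u : IsUnit (3 : A) := by
        have := hu 3 (by omega) (by omega)
        simpa using this
      have h2 : IsUnit (3 * (3 * (N : A) + 1) * (3 * (N : A) + 2) * (h3 N : A)) := by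
        refine ((h3u.mul ?_).mul ?_).mul (ih (by omega))
        · have := hu (3 * N + 1) (by omega) (by omega)
          push_cast at this
          exact this
        · have := hu (3 * N + 2) (by omega) (by omega)
          push_cast at this
          exact this
      rw [← h1] at h2
      exact isUnit_of_mul_isUnit_left h2
  have hQ : Qu a b Cc 0 = 0 := by
    apply eq_zero_of_roots (2 * Cc + 2)
    · exact lt_of_le_of_lt (Qu_deg a b Cc 0) (by omega)
    · intro k hk hk'
      exact hu k hk (by omega)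
    · intro N hN
      have h1 := Qu_eval a b Cc 0 N (Nat.zero_le N)
      have h2 : Su a b Cc 0 N = 0 := by
        unfold Su
        have hN' := h N (by omega)
        refine Eq.trans (sum_congr rfl fun i _ => ?_) hN'
        rw [zero_add]
        by_cases hi : i ≤ N
        · rw [if_pos hi, if_pos hi]
          congr 1
          simp only [tu, eval_add, eval_mul, eval_C, eval_sub, eval_X]
          ring
        · rw [if_neg hi, if_neg hi]
      rw [h2, mul_zero, Nat.sub_zero] at h1
      exact (hunit N (by omega)).mul_right_eq_zero.mp h1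
  intro i hi
  exact Qu_zero hu a b Cc 0 (by omega) (by omega) hQ i (Nat.zero_le i) (by omega)

end

section

variable {A : Type} [CommRing A] {p : ℕ} [hp : Fact p.Prime] {z0 : A}

theorem R_zerou (hu : ∀ k : ℕ, 0 < k → k < p → IsUnit (k : A)) (hz : IsUnit z0) (Cc : ℕ) (hC : 6 * Cc + 5 ≤ p)
    {R0 R1 : A[X]} (h0 : R0.natDegree < (Cc + 1) * p) (h1 : R1.natDegree < (Cc + 1) * p)
    (hrel : PowerSeries.X ^ (p * (2 * Cc + 2)) ∣
      (R1 : PowerSeries A) * fT p z0 (Ff (fun k => (h3 k : A)) 1 (2 * Cc + 2)) +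
      (R0 : PowerSeries A) * fT p z0 (Ff (fun k => (h3 k : A)) 0 (2 * Cc + 2))) :
    R0 = 0 ∧ R1 = 0 := by
  have hp0 := hp.out.pos
  have key : ∀ j < p, ∀ i ≤ Cc, z0 ^ (Cc - i) * R0.coeff (j + p * i) = 0 ∧ z0 ^ (Cc - i) * R1.coeff (j + p * i) = 0 := by
    intro j hj
    refine uniqu hu Cc hC (fun i => z0 ^ (Cc - i) * R0.coeff (j + p * i)) (fun i => z0 ^ (Cc - i) * R1.coeff (j + p * i)) ?_
    intro N hN
    have hc := (PowerSeries.X_pow_dvd_iff.mp hrel) (j + p * N) (by
      have := Nat.mul_le_mul_left p (show N + 1 ≤ 2 * Cc + 2 by omega)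
      rw [Nat.mul_succ] at this
      omega)
    rw [map_add, coeff_RF R1 1 _ N j Cc h1 (by omega) hj,
      coeff_RF R0 0 _ N j Cc h0 (by omega) hj, ← sum_add_distrib] at hc
    have hzN : IsUnit (z0 ^ N) := hz.pow N
    have : z0 ^ N * (∑ i ∈ range (Cc + 1), (if i ≤ N then
      (h3 (N - i) : A) * (z0 ^ (Cc - i) * R0.coeff (j + p * i) + ((N : A) - i) * (z0 ^ (Cc - i) * R1.coeff (j + p * i))) else 0)) = 0 := by
      have hc' := congrArg (fun x => z0 ^ Cc * x) hc
      simp only [mul_zero] at hc'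
      refine Eq.trans ?_ hc'
      rw [mul_sum, mul_sum]
      refine sum_congr rfl fun i hi => ?_
      rw [mem_range] at hi
      by_cases hiN : i ≤ N
      · simp only [if_pos hiN]
        have e : z0 ^ N * z0 ^ (Cc - i) = z0 ^ Cc * z0 ^ (N - i) := by
          rw [← pow_add, ← pow_add]; congr 1; omega
        rw [Nat.cast_sub hiN]
        linear_combination ((h3 (N - i) : A) * (R0.coeff (j + p * i) + ((N : A) - i) * R1.coeff (j + p * i))) * e
      · simp only [if_neg hiN, mul_zero, add_zero]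
    exact hzN.mul_right_eq_zero.mp this
  have fin : ∀ R : A[X], R.natDegree < (Cc + 1) * p → (∀ j < p, ∀ i ≤ Cc, z0 ^ (Cc - i) * R.coeff (j + p * i) = 0) → R = 0 := by
    intro R hR hk
    ext n
    rw [coeff_zero]
    by_cases hn : n < (Cc + 1) * p
    · have h := hk (n % p) (Nat.mod_lt _ hp0) (n / p) (by
        have := Nat.div_lt_of_lt_mul (by rwa [mul_comm] at hn : n < p * (Cc + 1))
        omega)
      rw [Nat.mod_add_div] at h
      exact (hz.pow _).mul_right_eq_zero.mp h
    · exact R.coeff_eq_zero_of_natDegree_lt (lt_of_lt_of_le hR (not_lt.mp hn))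
  exact ⟨fin R0 h0 fun j hj i hi => (key j hj i hi).1, fin R1 h1 fun j hj i hi => (key j hj i hi).2⟩

theorem phi_dvd (K : ℕ) : PowerSeries.X ^ K ∣ phi A - Ff (fun k => (h3 k : A)) 0 K := by
  rw [PowerSeries.X_pow_dvd_iff]
  intro m hm
  rw [map_sub]
  unfold phi Ff
  rw [PowerSeries.coeff_mk, map_sum]
  simp only [PowerSeries.coeff_C_mul, PowerSeries.coeff_X_pow, pow_zero, one_mul, mul_ite, mul_one, mul_zero]
  rw [Finset.sum_ite_eq (range K) m, if_pos (mem_range.2 hm), sub_self]

end

theorem U : Pool.Agent.H547.C9.S_U := by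
  intro A _ p hp hp53 hu x1 hx1 R0 R1 hR0 hR1 hd
  have e1 : fT p x1 (th (phi A ^ 2)) = 2 * (fT p x1 (phi A) * fT p x1 (th (phi A))) := by
    rw [sq, th_mul, map_add, map_mul, map_mul]
    ring
  have e2 : fT p x1 (phi A ^ 2) = fT p x1 (phi A) * fT p x1 (phi A) := by
    rw [sq, map_mul]
  have hunit : IsUnit (fT p x1 (phi A)) := by
    rw [PowerSeries.isUnit_iff_constantCoeff, fT_cc]
    have : PowerSeries.constantCoeff (phi A) = 1 := by
      unfold phi
      rw [← PowerSeries.coeff_zero_eq_constantCoeff_apply, PowerSeries.coeff_mk]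
      simp [h3]
    rw [this]
    exact isUnit_one
  rw [e1, e2] at hd
  have e3 : (R1 : PowerSeries A) * (2 * (fT p x1 (phi A) * fT p x1 (th (phi A)))) +
      (R0 : PowerSeries A) * (fT p x1 (phi A) * fT p x1 (phi A)) =
      ((2 : PowerSeries A) * (R1 : PowerSeries A) * fT p x1 (th (phi A)) +
        (R0 : PowerSeries A) * fT p x1 (phi A)) * fT p x1 (phi A) := by ring
  rw [e3, hunit.dvd_mul_right] at hd
  have d0 : PowerSeries.X ^ (p * 18) ∣ fT p x1 (phi A) - fT p x1 (Ff (fun k => (h3 k : A)) 0 18) := by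
    rw [← map_sub]
    exact fT_dvd x1 (phi_dvd 18)
  have d1 : PowerSeries.X ^ (p * 18) ∣ fT p x1 (th (phi A)) - fT p x1 (Ff (fun k => (h3 k : A)) 1 18) := by
    rw [← map_sub, ← th_Ff, ← th_sub]
    exact fT_dvd x1 (th_dvd (phi_dvd 18))
  have hcast : ((C 2 * R1 : A[X]) : PowerSeries A) = (2 : PowerSeries A) * (R1 : PowerSeries A) := by
    rw [Polynomial.coe_mul, Polynomial.coe_C, map_ofNat]
  have hrel : PowerSeries.X ^ (p * (2 * 8 + 2)) ∣
      ((C 2 * R1 : A[X]) : PowerSeries A) * fT p x1 (Ff (fun k => (h3 k : A)) 1 (2 * 8 + 2)) +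
      (R0 : PowerSeries A) * fT p x1 (Ff (fun k => (h3 k : A)) 0 (2 * 8 + 2)) := by
    rw [hcast]
    have h5 := (hd.sub (d1.mul_left ((2 : PowerSeries A) * (R1 : PowerSeries A)))).sub
      (d0.mul_left (R0 : PowerSeries A))
    refine h5.trans (dvd_of_eq ?_)
    ring
  obtain ⟨h6, h7⟩ := R_zerou hu hx1 8 (by omega) (R0 := R0) (R1 := C 2 * R1)
    (by omega) (lt_of_le_of_lt (natDegree_C_mul_le _ _) (by omega)) hrel
  refine ⟨h6, ?_⟩
  have h2 : IsUnit (2 : A) := by
    have := hu 2 (by omega) (by omega)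
    simpa using this
  have h8 : IsUnit (C (2 : A) : A[X]) := Polynomial.isUnit_C.2 h2
  exact h8.mul_right_eq_zero.mp h7

end Pool.Agent.H411.C9
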